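import Pool.Agent.H90.CNY.Stmts

/-!
# Row YOS of the board `cny` (helper45)
-/

set_option autoImplicit false

namespace Pool.CND

open Finset

open Classical in
theorem yos_val (h : S_YPM) (G : Type) [Group G] [Fintype G] (W : Subgroup G) (b : G → ℤ) (n : ℕ)
    (g0 : G) (hn : 1 ≤ n) (hW : ∀ w ∈ W, g0 * w * g0⁻¹ ∈ W)
    (hb : ∀ w ∈ W, w ≠ 1 → b (g0 * w * g0⁻¹) = b w)
    (hc : ∀ (j : ℕ), ∀ w ∈ W, w ≠ 1 → g0 ^ j * w = w * g0 ^ j → (n : ℤ) ∣ j * b w) (v : ℕ) :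
    n ∣ v * (univ.filter fun w : G => (w ∈ W ∧ w ≠ 1) ∧ b w = v).card := by
  set α : Type := {w : G // (w ∈ W ∧ w ≠ 1) ∧ b w = v} with hα
  let f : α → α := fun x => ⟨g0 * x.1 * g0⁻¹, ⟨hW _ x.2.1.1, by
    intro h1
    apply x.2.1.2
    have h2 : g0 * x.1 = g0 := mul_inv_eq_one.1 h1
    exact mul_eq_left.1 h2⟩, (hb _ x.2.1.1 x.2.1.2).trans x.2.2⟩
  have hf : Function.Injective f := by
    intro x y hxy
    have h1 : g0 * x.1 * g0⁻¹ = g0 * y.1 * g0⁻¹ := congrArg Subtype.val hxy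
    exact Subtype.ext (mul_left_cancel (mul_right_cancel h1))
  let σ : Equiv.Perm α := Equiv.ofBijective f (Finite.injective_iff_bijective.1 hf)
  have hσ : ∀ (j : ℕ) (x : α), (((σ ^ j) x : α) : G) = g0 ^ j * x.1 * (g0 ^ j)⁻¹ := by
    intro j
    induction j with
    | zero => intro x; simp
    | succ j ih =>
      intro x
      rw [pow_succ', Equiv.Perm.mul_apply]
      show g0 * ((σ ^ j) x : α).1 * g0⁻¹ = _
      rw [ih]
      rw [pow_succ' g0 j]
      group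
  set g : ℕ := Nat.gcd n v with hg
  have hgpos : 0 < g := Nat.gcd_pos_of_pos_left _ hn
  obtain ⟨d, hd⟩ : g ∣ n := Nat.gcd_dvd_left n v
  obtain ⟨v', hv'⟩ : g ∣ v := Nat.gcd_dvd_right n v
  have hcop : Nat.Coprime d v' := by
    have h1 := Nat.coprime_div_gcd_div_gcd hgpos (m := n) (n := v)
    rw [← hg] at h1
    have e1 : n / g = d := by rw [hd]; exact Nat.mul_div_cancel_left _ hgpos
    have e2 : v / g = v' := by rw [hv']; exact Nat.mul_div_cancel_left _ hgpos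
    rwa [e1, e2] at h1
  have hdc : d ∣ Fintype.card α := by
    apply h α σ d
    intro j x hx
    have h1 : g0 ^ j * x.1 * (g0 ^ j)⁻¹ = x.1 := by rw [← hσ, hx]
    have h2 : g0 ^ j * x.1 = x.1 * g0 ^ j := mul_inv_eq_iff_eq_mul.1 h1
    have h3 := hc j x.1 x.2.1.1 x.2.1.2 h2
    rw [x.2.2] at h3
    have h4 : n ∣ j * v := by exact_mod_cast h3
    rw [hd, hv'] at h4
    have h5 : g * d ∣ g * (j * v') := by
      have e : j * (g * v') = g * (j * v') := by ring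
      rwa [e] at h4
    have h6 : d ∣ j * v' := Nat.dvd_of_mul_dvd_mul_left hgpos h5
    exact hcop.dvd_of_dvd_mul_right h6
  have hcard : (univ.filter fun w : G => (w ∈ W ∧ w ≠ 1) ∧ b w = v).card = Fintype.card α :=
    (Fintype.card_subtype _).symm
  rw [hcard]
  obtain ⟨c, hc'⟩ := hdc
  rw [hc']
  refine ⟨v' * c, ?_⟩
  have e : v * (d * c) = (g * d) * (v' * c) := by
    conv_lhs => rw [hv']
    ring
  rw [e, ← hd]

open Classical in
theorem yos_thm (h : S_YPM) : S_YOS := by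
  intro G _ _ W b n g0 hn hW hb hb0 hc
  have e0 : sm b {g | g ∈ W ∧ g ≠ 1} = ∑ g ∈ univ.filter (fun g => g ∈ W ∧ g ≠ 1), b g := by
    unfold sm
    apply Finset.sum_congr _ (fun _ _ => rfl)
    ext g
    simp
  rw [e0]
  have hmap : ∀ g ∈ univ.filter (fun g => g ∈ W ∧ g ≠ 1),
      (b g).toNat ∈ (univ.filter (fun g => g ∈ W ∧ g ≠ 1)).image fun g => (b g).toNat :=
    fun g hg => mem_image_of_mem _ hg
  rw [← Finset.sum_fiberwise_of_maps_to hmap]
  apply Finset.dvd_sum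
  intro v _
  have h1 := yos_val h G W b n g0 hn hW hb hc v
  have e1 : (univ.filter (fun g => g ∈ W ∧ g ≠ 1)).filter (fun g => (b g).toNat = v) =
      univ.filter fun w : G => (w ∈ W ∧ w ≠ 1) ∧ b w = v := by
    ext g
    simp only [mem_filter, mem_univ, true_and]
    constructor
    · rintro ⟨h2, h3⟩
      refine ⟨h2, ?_⟩
      have := hb0 g h2.1 h2.2
      omega
    · rintro ⟨h2, h3⟩
      exact ⟨h2, by omega⟩
  rw [e1]
  have e2 : ∑ g ∈ univ.filter (fun w : G => (w ∈ W ∧ w ≠ 1) ∧ b w = v), b g =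
      ((v * (univ.filter fun w : G => (w ∈ W ∧ w ≠ 1) ∧ b w = v).card : ℕ) : ℤ) := by
    rw [Finset.sum_congr rfl (g := fun _ => (v : ℤ)) (fun g hg => (mem_filter.1 hg).2.2)]
    rw [Finset.sum_const]
    push_cast
    rw [nsmul_eq_mul]
    ring
  rw [e2]
  exact_mod_cast h1

end Pool.CND
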