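import Pool.Agent.H37.CNY.Stmts

/-!
# Row HAC of the board `cny` (helper45)
-/

set_option autoImplicit false

namespace Pool.CND

open Finset
open scoped commutatorElement

/-- sum over a group of a function on a quotient -/
theorem hac_sum {H : Type} [Group H] [Fintype H] (N : Subgroup H) [N.Normal] [Fintype (H ⧸ N)]
    (f : H ⧸ N → ℤ) : ∑ h : H, f (QuotientGroup.mk h) = Nat.card N * ∑ q : H ⧸ N, f q := by
  classical
  rw [Finset.mul_sum]
  rw [← Finset.sum_fiberwise_of_maps_to (s := (univ : Finset H)) (t := (univ : Finset (H ⧸ N)))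
    (g := fun h => (QuotientGroup.mk h : H ⧸ N)) (fun _ _ => mem_univ _)]
  apply sum_congr rfl
  intro q _
  have h1 : ∑ h ∈ univ.filter (fun h : H => (QuotientGroup.mk h : H ⧸ N) = q),
      f (QuotientGroup.mk h) = ∑ h ∈ univ.filter (fun h : H => (QuotientGroup.mk h : H ⧸ N) = q), f q :=
    sum_congr rfl (fun h hh => by rw [(mem_filter.1 hh).2])
  rw [h1, sum_const, nsmul_eq_mul]
  congr 1
  have h2 := QuotientGroup.card_preimage_mk N ({q} : Set (H ⧸ N))
  have h3 : Nat.card ((QuotientGroup.mk : H → H ⧸ N) ⁻¹' {q}) =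
      (univ.filter (fun h : H => (QuotientGroup.mk h : H ⧸ N) = q)).card := by
    rw [Nat.card_eq_fintype_card]
    rw [Fintype.card_subtype]
    congr 1
    ext x
    simp
  rw [← h3, h2]
  simp

theorem hac_thm (hFXP : S_FXP) (hRST : S_RST) (hART : S_ART) (hHER : S_HER) (hUQT : S_UQT)
    (hHAB : S_HAB) (hUMW : S_UMW) (hRAM : S_RAM) (_hTOT : S_TOT) : S_HAC := by
  classical
  intro p k L G _ _ _ _ _ P ρ W H l z hp hch hinj hW hHW hzH hzN hbz hl
  set N : Subgroup G := ⁅H, H⁆ with hNdef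
  have hNH : N ≤ H := by
    rw [hNdef, Subgroup.commutator_le]
    intro a ha b hb
    rw [commutatorElement_def]
    exact mul_mem (mul_mem (mul_mem ha hb) (inv_mem ha)) (inv_mem hb)
  have hconj : ∀ g ∈ H, ∀ n ∈ N, g * n * g⁻¹ ∈ N := by
    intro g hg n hn
    have h1 : ⁅g, n⁆ ∈ N := Subgroup.commutator_mem_commutator hg (hNH hn)
    have h2 : g * n * g⁻¹ = ⁅g, n⁆ * n := by rw [commutatorElement_def]; group
    rw [h2]
    exact mul_mem h1 hn
  have hfix : ∀ a ∈ H, Fixes P (ρ a) := by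
    intro a ha
    have h1 : a ∈ (W : Set G) := hHW ha
    rw [hW] at h1
    exact h1.1
  obtain ⟨F, hF, Q, hQ⟩ := hFXP k L G P ρ N hinj (fun n hn => hfix n (hNH hn))
  have hres : ∀ h : H, ∃ γ : F ≃ₐ[k] F, (∀ x : F, ((γ x : F) : L) = ρ h x) ∧ Fixes Q γ := by
    intro h
    exact hRST k L G P ρ N F Q h hF hQ (hconj h h.2) (fun n hn => by
      have := hconj (h : G)⁻¹ (inv_mem h.2) n hn
      rwa [inv_inv] at this) (hfix h h.2)
  choose γ hγ hγfix using hres
  have hγmul : ∀ a b : H, γ (a * b) = γ a * γ b := by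
    intro a b
    ext x
    rw [hγ, AlgEquiv.mul_apply, hγ, hγ, Subgroup.coe_mul, map_mul, AlgEquiv.mul_apply]
  have hγone : γ 1 = 1 := by
    ext x
    rw [hγ]
    simp
  let ρ'' : H →* (F ≃ₐ[k] F) := { toFun := γ, map_one' := hγone, map_mul' := hγmul }
  have hγ1 : ∀ h : H, (h : G) ∈ N ↔ γ h = 1 := by
    intro h
    constructor
    · intro hh
      ext x
      rw [hγ]
      exact (hF x).mp x.2 _ hh
    · intro hh
      apply hART k L G ρ N h hinj
      intro x hx
      have h1 := hγ h ⟨x, (hF x).mpr hx⟩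
      rw [hh] at h1
      exact h1.symm
  set N' : Subgroup H := N.subgroupOf H with hN'
  have : N'.Normal := ⟨fun n hn g => by
    rw [hN', Subgroup.mem_subgroupOf] at hn ⊢
    exact hconj g g.2 n hn⟩
  let ρ' : H ⧸ N' →* (F ≃ₐ[k] F) := QuotientGroup.lift N' ρ'' (by
    intro h hh
    rw [hN', Subgroup.mem_subgroupOf] at hh
    exact (hγ1 h).1 hh)
  have hρ' : ∀ h : H, ρ' (QuotientGroup.mk h) = γ h := fun h => rfl
  have hinj' : Function.Injective ρ' := by
    rw [injective_iff_map_eq_one]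
    intro q
    induction q using QuotientGroup.induction_on with
    | H h =>
      intro hq
      rw [hρ'] at hq
      rw [QuotientGroup.eq_one_iff, hN', Subgroup.mem_subgroupOf]
      exact (hγ1 h).2 hq
  let bρ : G → ℤ := fun g => P.b (ρ g)
  have hUM := hUMW k L G P ρ W hinj hW
  have hUMH : UM bρ H :=
    ⟨fun g hg => hUM.pos g (hHW hg), fun g hg => hUM.inv g (hHW hg),
      fun g hg g' hg' => hUM.mul g (hHW hg) g' (hHW hg')⟩
  let B : G → ℤ := fun g => if h : g ∈ H then Q.b (γ ⟨g, h⟩) else 0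
  have hBv : ∀ h : H, B h = Q.b (γ h) := by
    intro h
    show (if h' : (h : G) ∈ H then Q.b (γ ⟨h, h'⟩) else 0) = _
    rw [dif_pos h.2]
  have hB0 : ∀ g ∈ H, g ∉ N → sm bρ {x | g⁻¹ * x ∈ N} = Nat.card N * B g := by
    intro g hg hgN
    have h1 := hHER k L G P ρ N F Q g (γ ⟨g, hg⟩) hinj (fun n hn => hfix n (hNH hn)) hF hQ hgN
      (hfix g hg) (hγ ⟨g, hg⟩) (hγfix ⟨g, hg⟩) (fun h2 => hgN ((hγ1 ⟨g, hg⟩).2 h2))
    rw [← hBv ⟨g, hg⟩] at h1
    exact h1
  have hNpos : (0 : ℤ) < Nat.card N := by exact_mod_cast Nat.card_pos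
  have hBpos : ∀ g ∈ H, g ∉ N → 1 ≤ B g := by
    intro g hg hgN
    have h1 := hB0 g hg hgN
    have h2 : 0 < sm bρ {x | g⁻¹ * x ∈ N} := by
      unfold sm
      apply sum_pos
      · intro x hx
        have hx' : g⁻¹ * x ∈ N := by simpa using hx
        have hxH : x ∈ H := by
          have := mul_mem hg (hNH hx')
          rwa [mul_inv_cancel_left] at this
        have hx1 : x ≠ 1 := by
          rintro rfl
          rw [mul_one] at hx'
          exact hgN (inv_mem_iff.1 hx')
        have := hUMH.pos x hxH hx1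
        linarith
      · refine ⟨g, ?_⟩
        simp
    rw [h1] at h2
    have := (mul_pos_iff_of_pos_left hNpos).1 h2
    linarith
  obtain ⟨hmax, hU⟩ := hUQT G bρ B N H l z hUMH hNH hconj hB0 hl hzH hzN hbz
  have : Finite (H ⧸ N') := inferInstance
  have : Fintype (H ⧸ N') := Fintype.ofFinite _
  -- the quotient
  have htop : ((⊤ : Subgroup (H ⧸ N')) : Set (H ⧸ N')) = ram Q ρ' 1 := by
    ext q
    rw [Subgroup.coe_top]
    refine ⟨fun _ => ?_, fun _ => trivial⟩
    induction q using QuotientGroup.induction_on with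
    | H h =>
      rw [hRAM k F (H ⧸ N') Q ρ' (QuotientGroup.mk h) 1 le_rfl, hρ']
      refine ⟨hγfix h, ?_⟩
      by_cases hh : (h : G) ∈ N
      · exact Or.inl ((hγ1 h).1 hh)
      · right
        have := hBpos h h.2 hh
        rw [hBv] at this
        exact_mod_cast this
  have hcomm : ∀ a ∈ (⊤ : Subgroup (H ⧸ N')), ∀ b ∈ (⊤ : Subgroup (H ⧸ N')), a * b = b * a := by
    intro a _ b _
    induction a using QuotientGroup.induction_on with
    | H a =>
      induction b using QuotientGroup.induction_on with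
      | H b =>
        rw [← QuotientGroup.mk_mul, ← QuotientGroup.mk_mul, QuotientGroup.eq, hN',
          Subgroup.mem_subgroupOf]
        have h1 : ⁅(b : G)⁻¹, (a : G)⁻¹⁆ ∈ N :=
          Subgroup.commutator_mem_commutator (inv_mem b.2) (inv_mem a.2)
        have h2 : (((a * b)⁻¹ * (b * a) : H) : G) = ⁅(b : G)⁻¹, (a : G)⁻¹⁆ := by
          rw [commutatorElement_def]
          push_cast
          group
        rw [h2]
        exact h1
  have hl' : IsLst (fun q => Q.b (ρ' q)) (⊤ : Subgroup (H ⧸ N')) (B z) := by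
    constructor
    · refine ⟨QuotientGroup.mk ⟨z, hzH⟩, trivial, ?_, ?_⟩
      · intro h1
        rw [QuotientGroup.eq_one_iff, hN', Subgroup.mem_subgroupOf] at h1
        exact hzN h1
      · show Q.b (ρ' (QuotientGroup.mk ⟨z, hzH⟩)) = B z
        rw [hρ', ← hBv]
    · intro q _ hq
      induction q using QuotientGroup.induction_on with
      | H h =>
        show Q.b (ρ' (QuotientGroup.mk h)) ≤ B z
        rw [hρ', ← hBv]
        apply hmax h h.2
        intro hh
        apply hq
        rw [QuotientGroup.eq_one_iff, hN', Subgroup.mem_subgroupOf]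
        exact hh
  obtain ⟨y, hy⟩ := hHAB p k F (H ⧸ N') Q ρ' ⊤ ⊤ (B z) hp hch hinj' htop le_rfl hcomm hl'
  refine ⟨y, ?_⟩
  -- cardinalities
  have hcN : Nat.card N' = Nat.card N := Nat.card_congr (Subgroup.subgroupOfEquivOfLe hNH).toEquiv
  have hcH : Nat.card H = Nat.card (H ⧸ N') * Nat.card N := by
    rw [← hcN]
    exact Subgroup.card_eq_card_quotient_mul_card_subgroup N'
  -- sums
  have hsum : sm B {g | g ∈ H ∧ g ∉ N} =
      Nat.card N * sm (fun q => Q.b (ρ' q)) {q | q ∈ (⊤ : Subgroup (H ⧸ N')) ∧ q ≠ 1} := by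
    have e1 : sm B {g | g ∈ H ∧ g ∉ N} = ∑ h : H, if (h : G) ∈ N then 0 else B h := by
      unfold sm
      have e0 : ∑ g ∈ univ.filter (fun g : G => g ∈ H), (if g ∈ N then 0 else B g) =
          ∑ h : H, if (h : G) ∈ N then 0 else B h :=
        Finset.sum_subtype _ (fun x => by simp) _
      rw [← e0, Finset.sum_filter, Finset.sum_filter]
      apply sum_congr rfl
      intro g _
      by_cases h1 : g ∈ H
      · by_cases h2 : g ∈ N
        · simp [h1, h2]
        · simp [h1, h2]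
      · simp [h1]
    have e2 : sm (fun q => Q.b (ρ' q)) {q | q ∈ (⊤ : Subgroup (H ⧸ N')) ∧ q ≠ 1} =
        ∑ q : H ⧸ N', if q = 1 then 0 else Q.b (ρ' q) := by
      unfold sm
      rw [Finset.sum_filter]
      apply sum_congr rfl
      intro q _
      by_cases h1 : q = 1
      · simp [h1]
      · simp [h1]
    rw [e1, e2, ← hcN, ← hac_sum N' (fun q => if q = 1 then 0 else Q.b (ρ' q))]
    apply sum_congr rfl
    intro h _
    have h1 : (QuotientGroup.mk h : H ⧸ N') = 1 ↔ (h : G) ∈ N := by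
      rw [QuotientGroup.eq_one_iff, hN', Subgroup.mem_subgroupOf]
    by_cases h2 : (h : G) ∈ N
    · rw [if_pos h2, if_pos (h1.2 h2)]
    · rw [if_neg h2, if_neg (fun h3 => h2 (h1.1 h3)), hρ', hBv]
  rw [hsum] at hU
  unfold U at hy
  have hq0 : ((Nat.card (⊤ : Subgroup (H ⧸ N')) : ℕ) : ℚ) = Nat.card (H ⧸ N') := by
    rw [Subgroup.card_top]
  have hqpos : (0 : ℚ) < Nat.card (H ⧸ N') := by exact_mod_cast Nat.card_pos
  rw [hq0, div_eq_iff hqpos.ne'] at hy
  have hHpos : (0 : ℚ) < Nat.card H := by exact_mod_cast Nat.card_pos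
  have h5 : (Nat.card H : ℚ) * U bρ H l = Nat.card H * y := by
    rw [hU, hcH]
    push_cast
    linear_combination (Nat.card N : ℚ) * hy
  exact mul_left_cancel₀ hHpos.ne' h5

end Pool.CND
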